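import Pool.Agent.Lib.MP_8382de_an.W3.Fin3
import Pool.Agent.Lib.MP_8382de_an.Turan

/-!
# MP_8382de_an: the exact threshold `c = a + b + 1` on a box of parameters

For all `a, b ∈ [1/2, 1]`, all `0 < d ≤ 1/2` and EVERY `c > a + b`: all zeros of `Φ_{a,b,c,d}` are real
and negative if and only if `c ≥ a + b + 1`.

Method (sufficiency): the sequence `Γ(ak+1) Γ(bk+1)/Γ(ck+d+1)` is a product of multiplier sequences of
Laguerre type and of one sequence `exp(-∫ g(t) e^(-kt) dt)/Γ(k+s)`, where `g` is an explicit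
combination of Binet kernels. The latter is a multiplier sequence as soon as
`∫ |g(t)| e^(wt) dt < log 2`, `s ≤ 1/2 + 2w`, `s ≤ 1 + w` (a Sonin function of the Laguerre
polynomials and the exponential of a signed measure). Two choices of the factors cover the box.
-/

set_option autoImplicit false

namespace Pool.Agent.Results.MP_8382de_an.ExactThreshold

/-- the function of the problem -/
noncomputable def Phi (a b c d : ℝ) (x : ℂ) : ℂ :=
  ∑' k : ℕ, ((Real.Gamma (a * k + 1) * Real.Gamma (b * k + 1) / Real.Gamma (c * k + d + 1) : ℝ) : ℂ)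
    * x ^ k / (k.factorial : ℂ)

/-- `Φ_{a,b,c,d}` has only real negative zeros -/
def Good (a b c d : ℝ) : Prop := ∀ x : ℂ, Phi a b c d x = 0 → x.im = 0 ∧ x.re < 0

/-- **The exact threshold.** For all `a, b ∈ [1/2, 1]`, `0 < d ≤ 1/2` and `c > a + b`: all zeros of
`Φ_{a,b,c,d}` are real and negative if and only if `c ≥ a + b + 1`. -/
theorem result (a b c d : ℝ) (ha : 1 / 2 ≤ a) (ha1 : a ≤ 1) (hb : 1 / 2 ≤ b) (hb1 : b ≤ 1)
    (hd : 0 < d) (hd2 : d ≤ 1 / 2) (hc : a + b < c) : Good a b c d ↔ a + b + 1 ≤ c := by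
  constructor
  · intro h
    by_contra hcon
    have hmain := Pool.Agent.Lib.MP_8382de_an.final (a := a) (b := b) (c := c) (d := d)
      (by linarith) (by linarith) hc hd (Or.inl (not_le.mp hcon))
    obtain ⟨z, hz⟩ := hmain.2.nonempty
    exact hz.2 (h z hz.1).1
  · intro h x hx
    exact Pool.Agent.Lib.MP_8382de_an.W3.main3 ha ha1 hb hb1 hd hd2 h hx

end Pool.Agent.Results.MP_8382de_an.ExactThreshold
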