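import Pool.Agent.Lib.MP_8382de_an.ET.Fin
import Pool.Agent.Lib.MP_8382de_an.Final

/-!
# MP_8382de_an: the exact threshold for `c` when `d` is small

For all `a, b > 0` with `a + b ≥ 1` and all `0 < d ≤ 1/(32 (1 + log(8(a+b+1)/min(a,b))))` and every
`c > a + b`: all zeros of `Φ_{a,b,c,d}` are real and negative if and only if `c ≥ a + b + 1`.
-/

set_option autoImplicit false

namespace Pool.Agent.Results.MP_8382de_an.ExactThresholdSmallD

/-- the function of the problem -/
noncomputable def Phi (a b c d : ℝ) (x : ℂ) : ℂ :=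
  ∑' k : ℕ, ((Real.Gamma (a * k + 1) * Real.Gamma (b * k + 1) / Real.Gamma (c * k + d + 1) : ℝ) : ℂ)
    * x ^ k / (k.factorial : ℂ)

/-- `Φ_{a,b,c,d}` has only real negative zeros -/
def Good (a b c d : ℝ) : Prop := ∀ x : ℂ, Phi a b c d x = 0 → x.im = 0 ∧ x.re < 0

theorem necessary {a b c d : ℝ} (ha : 0 < a) (hb : 0 < b) (hd : 0 < d) (hc : a + b < c)
    (h : Good a b c d) : a + b + 1 ≤ c := by
  by_contra hcon
  have hmain := Pool.Agent.Lib.MP_8382de_an.final (a := a) (b := b) (c := c) (d := d) ha hb hc hd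
    (Or.inl (not_le.mp hcon))
  obtain ⟨z, hz⟩ := hmain.2.nonempty
  exact hz.2 (h z hz.1).1

theorem result (a b d : ℝ) (ha : 0 < a) (hb : 0 < b) (hab : 1 ≤ a + b) (hd : 0 < d)
    (hd1 : d ≤ 1 / (32 * (1 + Real.log (8 * (a + b + 1) / min a b)))) (c : ℝ) (hc : a + b < c) :
    Good a b c d ↔ a + b + 1 ≤ c := by
  have hlog : 0 ≤ Real.log (8 * (a + b + 1) / min a b) := by
    apply Real.log_nonneg
    rw [le_div_iff₀ (lt_min ha hb)]
    have := min_le_left a b
    linarith
  have hdL : d * (1 + Real.log (8 * (a + b + 1) / min a b)) ≤ 1 / 32 := by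
    rw [le_div_iff₀ (by positivity)] at hd1
    rw [le_div_iff₀ (by norm_num)]
    linarith
  exact ⟨necessary ha hb hd hc, fun h x hx =>
    Pool.Agent.Lib.MP_8382de_an.ET.good_small ha hb hab hd hdL h hx⟩

end Pool.Agent.Results.MP_8382de_an.ExactThresholdSmallD
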