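import Pool.Agent.Lib.MP_8382de_an.Turan

/-!
# MP_8382de_an: necessary conditions for the zeros of the two-gamma Wright function

If all zeros of `Φ_{a,b,c,d}` are real then `c ≥ a + b + 1`; on the critical plane
`c = a + b + 1` also `d ≤ 1 + 2 / max a b`; and for all `c` the Turan inequality holds, which
bounds `d` explicitly in terms of `a, b, c`.
-/

set_option autoImplicit false

namespace Pool.Agent.Results.MP_8382de_an.NecessaryC

/-- the function of the problem -/
noncomputable def Phi (a b c d : ℝ) (x : ℂ) : ℂ :=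
  ∑' k : ℕ, ((Real.Gamma (a * k + 1) * Real.Gamma (b * k + 1) / Real.Gamma (c * k + d + 1) : ℝ) : ℂ)
    * x ^ k / (k.factorial : ℂ)

theorem result (a b c d : ℝ) (ha : 0 < a) (hb : 0 < b) (hd : 0 < d) (hc : a + b < c) :
    -- the series converges absolutely everywhere and its sum is entire
    (∀ x : ℂ, Summable fun k : ℕ =>
      ‖((Real.Gamma (a * k + 1) * Real.Gamma (b * k + 1) / Real.Gamma (c * k + d + 1) : ℝ) : ℂ)
        * x ^ k / (k.factorial : ℂ)‖) ∧
    Differentiable ℂ (Phi a b c d) ∧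
    -- below the critical plane, and on it for large `d`, almost all zeros are not real
    ((c < a + b + 1 ∨ (c = a + b + 1 ∧ 1 + 2 / max a b < d)) →
      {x : ℝ | Phi a b c d (x : ℂ) = 0}.Finite ∧
        {z : ℂ | Phi a b c d z = 0 ∧ z.im ≠ 0}.Infinite) ∧
    -- the logarithm in the last condition is positive
    0 < Real.log ((1 + a) ^ 2 * (1 + b) ^ 2 / ((1 + 2 * a) * (1 + 2 * b))) ∧
    -- necessary conditions
    ((∀ z : ℂ, Phi a b c d z = 0 → z.im = 0) →
      a + b + 1 ≤ c ∧ (c = a + b + 1 → d ≤ 1 + 2 / max a b) ∧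
      Real.Gamma (2 * a + 1) * Real.Gamma (2 * b + 1) * Real.Gamma (c + d + 1) ^ 2 ≤
        Real.Gamma (a + 1) ^ 2 * Real.Gamma (b + 1) ^ 2 *
          (Real.Gamma (d + 1) * Real.Gamma (2 * c + d + 1)) ∧
      d ≤ c * (2 * c + 1) /
        Real.log ((1 + a) ^ 2 * (1 + b) ^ 2 / ((1 + 2 * a) * (1 + 2 * b)))) := by
  have hmain := Pool.Agent.Lib.MP_8382de_an.final (a := a) (b := b) (c := c) (d := d) ha hb hc hd
  have hmain' : (c < a + b + 1 ∨ (c = a + b + 1 ∧ 1 + 2 / max a b < d)) →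
      {x : ℝ | Phi a b c d (x : ℂ) = 0}.Finite ∧
        {z : ℂ | Phi a b c d z = 0 ∧ z.im ≠ 0}.Infinite := hmain
  refine ⟨fun x => (Pool.Agent.Lib.MP_8382de_an.term_summable ha hb hc hd x).norm,
    Pool.Agent.Lib.MP_8382de_an.Phi_differentiable ha hb hc hd, hmain',
    Real.log_pos (Pool.Agent.Lib.MP_8382de_an.rho_gt_one ha hb), ?_⟩
  intro hall
  have hno : ¬ {z : ℂ | Phi a b c d z = 0 ∧ z.im ≠ 0}.Infinite := by
    intro hinf
    obtain ⟨z, hz⟩ := hinf.nonempty
    exact hz.2 (hall z hz.1)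
  refine ⟨?_, ?_, Pool.Agent.Lib.MP_8382de_an.turan' ha hb hc hd hall, ?_⟩
  · by_contra hcon
    exact hno (hmain' (Or.inl (not_le.mp hcon))).2
  · intro hceq
    by_contra hcon
    exact hno (hmain' (Or.inr ⟨hceq, not_le.mp hcon⟩)).2
  · rw [le_div_iff₀ (Real.log_pos (Pool.Agent.Lib.MP_8382de_an.rho_gt_one ha hb))]
    exact Pool.Agent.Lib.MP_8382de_an.d_bound ha hb hc hd hall

end Pool.Agent.Results.MP_8382de_an.NecessaryC
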