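import Pool.Agent.Lib.MP_8382de_an.W2.Fin2
import Pool.Agent.Lib.MP_8382de_an.Turan

/-!
# MP_8382de_an: all zeros real and negative for `c ≥ a + b + 4`, the threshold for `c`

For all `a, b > 0` with `c - a - b ≥ 4` (`≥ 3` if `min a b ≤ 6`) all zeros of `Φ_{a,b,c,d}` are
real and negative as soon as `0 < d`, `d max(a,b) ≤ c - max(a,b)` and `d min(a,b) ≤ c - a - b`.
Together with the necessary condition `c ≥ a + b + 1` this locates the threshold for `c`. There are
further results on the plane `c = a + b + 2` and on the critical plane `c = a + b + 1`.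

Method: Schur-Szegő products with the Laguerre polynomials; multipliers `f (k) / k!` with `f` a
Bernstein function of small growth preserve real negative zeros (proved with a Sonin function of
the Laguerre polynomials); the ratios of Gamma functions in question are products of such
Bernstein blocks and of Laguerre multipliers `1/Γ(e k + β)`.
-/

set_option autoImplicit false

namespace Pool.Agent.Results.MP_8382de_an.SufficientRegion

/-- the function of the problem -/
noncomputable def Phi (a b c d : ℝ) (x : ℂ) : ℂ :=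
  ∑' k : ℕ, ((Real.Gamma (a * k + 1) * Real.Gamma (b * k + 1) / Real.Gamma (c * k + d + 1) : ℝ) : ℂ)
    * x ^ k / (k.factorial : ℂ)

/-- `Φ_{a,b,c,d}` has only real negative zeros -/
def Good (a b c d : ℝ) : Prop := ∀ x : ℂ, Phi a b c d x = 0 → x.im = 0 ∧ x.re < 0

/-- the conditions on `(a, b, c, d)` -/
def Region (a b c d : ℝ) : Prop :=
  -- (I) the four parameter region
  ((4 ≤ c - a - b ∨ (3 ≤ c - a - b ∧ min a b ≤ 6)) ∧ d * max a b ≤ c - max a b ∧
    d * min a b ≤ c - a - b) ∨
  -- (II) the plane `c = a + b + 2`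
  (c = a + b + 2 ∧ min a b ≤ 2 ∧ d ≤ 1 ∧ d * max a b ≤ c - max a b) ∨
  -- (III) `b = 1/n`, `d = 1`, `c = a + 2` (for `n = 1` this is on the critical plane)
  (∃ n : ℕ, 1 ≤ n ∧ b = 1 / n ∧ d = 1 ∧ c = a + 2 ∧ a ≤ 2)

theorem good_of_region {a b c d : ℝ} (ha : 0 < a) (hb : 0 < b) (hd : 0 < d)
    (h : Region a b c d) : a + b < c ∧ Good a b c d := by
  rcases h with ⟨h1, h2, h3⟩ | ⟨h1, h2, h3, h4⟩ | ⟨n, hn, rfl, rfl, rfl, h1⟩
  · refine ⟨?_, fun x hx =>
      Pool.Agent.Lib.MP_8382de_an.W2.main2 ha hb hd h1 h2 h3 hx⟩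
    rcases h1 with h | h <;> linarith [h]
  · exact ⟨by linarith, fun x hx =>
      Pool.Agent.Lib.MP_8382de_an.W2.main2p ha hb hd h3 h1 h2 h4 hx⟩
  · have hn1 : (1 : ℝ) / n ≤ 1 := by
      rw [div_le_one (by exact_mod_cast hn)]
      exact_mod_cast hn
    exact ⟨by linarith, fun x hx =>
      Pool.Agent.Lib.MP_8382de_an.ALG.main_III hn ha h1 hx⟩

theorem necessary {a b c d : ℝ} (ha : 0 < a) (hb : 0 < b) (hd : 0 < d) (hc : a + b < c)
    (h : Good a b c d) : a + b + 1 ≤ c := by
  by_contra hcon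
  have hmain := Pool.Agent.Lib.MP_8382de_an.final (a := a) (b := b) (c := c) (d := d) ha hb hc hd
    (Or.inl (not_le.mp hcon))
  obtain ⟨z, hz⟩ := hmain.2.nonempty
  exact hz.2 (h z hz.1).1

theorem result :
    -- sufficient conditions
    (∀ a b c d : ℝ, 0 < a → 0 < b → 0 < d → Region a b c d → a + b < c ∧ Good a b c d) ∧
    -- location of the threshold for `c`
    (∀ a b d : ℝ, 0 < a → 0 < b → 0 < d → d * min a b ≤ 4 → d * max a b ≤ min a b + 4 →
      ∀ c : ℝ, a + b < c → (Good a b c d → a + b + 1 ≤ c) ∧ (a + b + 4 ≤ c → Good a b c d)) := by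
  refine ⟨fun a b c d ha hb hd h => good_of_region ha hb hd h, ?_⟩
  intro a b d ha hb hd hmin hmax c hc
  refine ⟨fun h => necessary ha hb hd hc h, fun h4 => ?_⟩
  have h3 : min a b + max a b = a + b := min_add_max a b
  exact (good_of_region ha hb hd (Or.inl ⟨Or.inl (by linarith), by linarith, by linarith⟩)).2

end Pool.Agent.Results.MP_8382de_an.SufficientRegion
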